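import Mathlib

/-!
# Functions on products of balleans: the core argument
-/

open Set

namespace Q184.Ball

variable {X Y : Type*}

/-- `E[x]`. -/
def ball (E : Set (X × X)) (x : X) : Set X := {y | (x, y) ∈ E}

/-- Bounded sets. -/
def Bd (𝓔 : Set (Set (X × X))) (B : Set X) : Prop := ∃ E ∈ 𝓔, ∃ x, B ⊆ ball E x

/-- The common properties of the bases of coarse structures used here. -/
structure IsBall (𝓔 : Set (Set (X × X))) : Prop where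
  refl : ∀ E ∈ 𝓔, ∃ E' ∈ 𝓔, E ⊆ E' ∧ ∀ x, (x, x) ∈ E'
  comp : ∀ E ∈ 𝓔, ∀ F ∈ 𝓔, ∃ D ∈ 𝓔, ∀ x y z, (x, y) ∈ E → (z, y) ∈ F → (x, z) ∈ D
  cover : ∀ x y, ∃ E ∈ 𝓔, (x, y) ∈ E

namespace IsBall

variable {𝓔 : Set (Set (X × X))} (h𝓔 : IsBall 𝓔)
include h𝓔

theorem inv {F : Set (X × X)} (hF : F ∈ 𝓔) : ∃ D ∈ 𝓔, ∀ x y, (y, x) ∈ F → (x, y) ∈ D := by
  obtain ⟨F', hF', hsub, hrefl⟩ := h𝓔.refl F hF
  obtain ⟨D, hD, h⟩ := h𝓔.comp F' hF' F hF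
  exact ⟨D, hD, fun x y hxy => h x x y (hrefl x) hxy⟩

theorem mul {E F : Set (X × X)} (hE : E ∈ 𝓔) (hF : F ∈ 𝓔) :
    ∃ D ∈ 𝓔, ∀ x y z, (x, y) ∈ E → (y, z) ∈ F → (x, z) ∈ D := by
  obtain ⟨F', hF', h⟩ := h𝓔.inv hF
  obtain ⟨D, hD, h'⟩ := h𝓔.comp E hE F' hF'
  exact ⟨D, hD, fun x y z hxy hyz => h' x y z hxy (h z y hyz)⟩

theorem sup {E F : Set (X × X)} (hE : E ∈ 𝓔) (hF : F ∈ 𝓔) :
    ∃ D ∈ 𝓔, E ⊆ D ∧ F ⊆ D ∧ ∀ x, (x, x) ∈ D := by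
  obtain ⟨E', hE', hs, hr⟩ := h𝓔.refl E hE
  obtain ⟨F', hF', hs', hr'⟩ := h𝓔.refl F hF
  obtain ⟨D, hD, h⟩ := h𝓔.mul hE' hF'
  exact ⟨D, hD, fun p hp => h p.1 p.2 p.2 (hs hp) (hr' _),
    fun p hp => h p.1 p.1 p.2 (hr _) (hs' hp), fun x => h x x x (hr x) (hr' x)⟩

theorem bd_union {A B : Set X} (hA : Bd 𝓔 A) (hB : Bd 𝓔 B) : Bd 𝓔 (A ∪ B) := by
  obtain ⟨E, hE, x, hx⟩ := hA
  obtain ⟨F, hF, y, hy⟩ := hB
  obtain ⟨G, hG, hxy⟩ := h𝓔.cover x y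
  obtain ⟨H, hH, h⟩ := h𝓔.mul hG hF
  obtain ⟨D, hD, h1, h2, -⟩ := h𝓔.sup hE hH
  refine ⟨D, hD, x, ?_⟩
  rintro z (hz | hz)
  · exact h1 (hx hz)
  · exact h2 (h x y z hxy (hy hz))

omit h𝓔 in
theorem bd_mono {A B : Set X} (hB : Bd 𝓔 B) (h : A ⊆ B) : Bd 𝓔 A := by
  obtain ⟨E, hE, x, hx⟩ := hB
  exact ⟨E, hE, x, h.trans hx⟩

theorem bd_iUnion_lt {Z : ℕ → Set X} (B : Set X) (hB : Bd 𝓔 B) (hZ : ∀ n, Bd 𝓔 (Z n)) (N : ℕ) :
    Bd 𝓔 (B ∪ ⋃ n ∈ {n | n < N}, Z n) := by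
  induction N with
  | zero =>
    refine bd_mono hB ?_
    rintro x (hx | hx)
    · exact hx
    · simp at hx
  | succ N ih =>
    refine bd_mono (h𝓔.bd_union ih (hZ N)) ?_
    rintro x (hx | hx)
    · exact Or.inl (Or.inl hx)
    · simp only [mem_ofPred_eq, mem_iUnion, exists_prop] at hx
      obtain ⟨n, hn, hx⟩ := hx
      rcases Nat.lt_succ_iff_lt_or_eq.mp hn with h | h
      · left; right
        simp only [mem_ofPred_eq, mem_iUnion, exists_prop]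
        exact ⟨n, h, hx⟩
      · right
        rw [← h]
        exact hx

end IsBall

/-- `g` oscillates by at most `ε` on the balls `E[x]` off a bounded set. -/
def Osc (𝓔 : Set (Set (X × X))) (g : X → ℝ) (E : Set (X × X)) (ε : ℝ) : Prop :=
  ∃ B, Bd 𝓔 B ∧ ∀ x, x ∉ B → ∀ y ∈ ball E x, ∀ z ∈ ball E x, |g y - g z| ≤ ε

/-- `g` is bounded off a bounded set. -/
def BB (𝓔 : Set (Set (X × X))) (g : X → ℝ) : Prop :=
  ∃ B, Bd 𝓔 B ∧ ∃ K, ∀ x, x ∉ B → |g x| ≤ K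

/-- `f` oscillates by at most `ε` on the sets `E[x] × F[y]` off a bounded set. -/
def Osc2 (𝓔 : Set (Set (X × X))) (𝓕 : Set (Set (Y × Y))) (f : X → Y → ℝ) (E : Set (X × X))
    (F : Set (Y × Y)) (ε : ℝ) : Prop :=
  ∃ B C, Bd 𝓔 B ∧ Bd 𝓕 C ∧ ∀ x y, (x ∉ B ∨ y ∉ C) → ∀ x' ∈ ball E x, ∀ x'' ∈ ball E x,
    ∀ y' ∈ ball F y, ∀ y'' ∈ ball F y, |f x' y' - f x'' y''| ≤ ε

/-- The core theorem: upper bounds. -/
theorem core_upper {𝓔 : Set (Set (X × X))} {𝓕 : Set (Set (Y × Y))} (h𝓔 : IsBall 𝓔)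
    (h𝓕 : IsBall 𝓕) [Nonempty X] [Nonempty Y] (f : X → Y → ℝ)
    (hf : ∀ E ∈ 𝓔, ∀ F ∈ 𝓕, ∃ K, Osc2 𝓔 𝓕 f E F K)
    (hX : ∀ g : X → ℝ, (∀ E ∈ 𝓔, ∀ F ∈ 𝓕, (∀ x, (x, x) ∈ E) → (∀ y, (y, y) ∈ F) → ∀ ε, 0 ≤ ε →
      Osc2 𝓔 𝓕 f E F ε → Osc 𝓔 g E ε) → BB 𝓔 g)
    (hY : ∀ g : Y → ℝ, (∀ E ∈ 𝓔, ∀ F ∈ 𝓕, (∀ x, (x, x) ∈ E) → (∀ y, (y, y) ∈ F) → ∀ ε, 0 ≤ ε →
      Osc2 𝓔 𝓕 f E F ε → Osc 𝓕 g F ε) → BB 𝓕 g) :
    ∃ B C, Bd 𝓔 B ∧ Bd 𝓕 C ∧ ∃ K, ∀ x y, (x ∉ B ∨ y ∉ C) → f x y ≤ K := by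
  classical
  obtain ⟨x₀⟩ := ‹Nonempty X›
  obtain ⟨y₀⟩ := ‹Nonempty Y›
  obtain ⟨EX, hEX, -⟩ := h𝓔.cover x₀ x₀
  obtain ⟨FY, hFY, -⟩ := h𝓕.cover y₀ y₀
  -- Step 1: tails over bounded sets of `X`
  have step1 : ∀ B, Bd 𝓔 B → ∃ C, Bd 𝓕 C ∧ ∃ T, ∀ x ∈ B, ∀ y, y ∉ C → f x y ≤ T := by
    rintro B ⟨E, hE, x1, hB⟩
    obtain ⟨E', hE', hsub, hr⟩ := h𝓔.refl E hE
    obtain ⟨F, hF, -, hrF⟩ := h𝓕.refl FY hFY
    obtain ⟨K, B1, C1, hB1, hC1, hK⟩ := hf E' hE' F hF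
    have hsec : BB 𝓕 (f x1) := by
      apply hY
      rintro E₂ hE₂ F₂ hF₂ hr1 hr2 ε hε ⟨B₂, C₂, hB₂, hC₂, h⟩
      refine ⟨C₂, hC₂, fun y hy y' hy' y'' hy'' => ?_⟩
      exact h x1 y (Or.inr hy) x1 (hr1 x1) x1 (hr1 x1) y' hy' y'' hy''
    obtain ⟨C0, hC0, K0, hK0⟩ := hsec
    refine ⟨C0 ∪ C1, h𝓕.bd_union hC0 hC1, K0 + K, fun x hx y hy => ?_⟩
    have h1 : |f x1 y| ≤ K0 := hK0 y fun h => hy (Or.inl h)
    have h2 := hK x1 y (Or.inr fun h => hy (Or.inr h)) x (hsub (hB hx)) x1 (hr x1) y (hrF y) y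
      (hrF y)
    have h3 := (abs_le.mp h1).2
    have h4 := (abs_le.mp h2).2
    linarith
  -- Step 2
  have step2 : ∀ C, Bd 𝓕 C → Bd 𝓔 {x | ∀ t : ℝ, ∃ y ∈ C, t < f x y} := by
    rintro C ⟨F, hF, y1, hC⟩
    obtain ⟨F', hF', hsub, hr⟩ := h𝓕.refl F hF
    obtain ⟨E, hE, -, hrE⟩ := h𝓔.refl EX hEX
    obtain ⟨K, B1, C1, hB1, hC1, hK⟩ := hf E hE F' hF'
    refine IsBall.bd_mono hB1 ?_
    intro x hx
    by_contra hxB
    obtain ⟨y, hy, hlt⟩ := hx (f x y1 + K)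
    have h2 := hK x y1 (Or.inl hxB) x (hrE x) x (hrE x) y (hsub (hC hy)) y1 (hr y1)
    have h4 := (abs_le.mp h2).2
    linarith
  -- the equivalence relation
  let Eqv : X → X → Prop := fun x x' => ∃ K, ∀ y, |f x y - f x' y| ≤ K
  have eqv_symm : ∀ {x x'}, Eqv x x' → Eqv x' x := by
    rintro x x' ⟨K, hK⟩
    exact ⟨K, fun y => by rw [abs_sub_comm]; exact hK y⟩
  -- Step 4: invariant functions
  have step4 : ∀ c : X → ℝ, (∀ x x', Eqv x x' → c x = c x') → BB 𝓔 c := by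
    intro c hc
    apply hX
    rintro E hE F hF hr1 hr2 ε hε ⟨B, C, hB, hC, h⟩
    refine ⟨B, hB, fun x hx x' hx' x'' hx'' => ?_⟩
    have h1 : ∀ z ∈ ball E x, c x = c z := by
      intro z hz
      apply hc
      exact ⟨ε, fun y => h x y (Or.inl hx) x (hr1 x) z hz y (hr2 y) y (hr2 y)⟩
    rw [← h1 x' hx', ← h1 x'' hx'', sub_self, abs_zero]
    exact hε
  -- Step 5: countable unions of bounded saturated sets
  have step5 : ∀ Z : ℕ → Set X, (∀ n, Bd 𝓔 (Z n)) →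
      (∀ n x x', x ∈ Z n → Eqv x x' → x' ∈ Z n) → Bd 𝓔 (⋃ n, Z n) := by
    intro Z hZ hsat
    let c : X → ℝ := fun x => if h : ∃ n, x ∈ Z n then (Nat.find h : ℝ) else 0
    have hc : ∀ x x', Eqv x x' → c x = c x' := by
      intro x x' hxx
      by_cases h : ∃ n, x ∈ Z n
      · have h' : ∃ n, x' ∈ Z n := by
          obtain ⟨n, hn⟩ := h
          exact ⟨n, hsat n x x' hn hxx⟩
        have e1 : c x = (Nat.find h : ℝ) := dif_pos h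
        have e2 : c x' = (Nat.find h' : ℝ) := dif_pos h'
        rw [e1, e2]
        congr 1
        apply le_antisymm
        · exact Nat.find_min' h (hsat _ x' x (Nat.find_spec h') (eqv_symm hxx))
        · exact Nat.find_min' h' (hsat _ x x' (Nat.find_spec h) hxx)
      · have h' : ¬ ∃ n, x' ∈ Z n := by
          rintro ⟨n, hn⟩
          exact h ⟨n, hsat n x' x hn (eqv_symm hxx)⟩
        have e1 : c x = 0 := dif_neg h
        have e2 : c x' = 0 := dif_neg h'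
        rw [e1, e2]
    obtain ⟨B, hB, K, hK⟩ := step4 c hc
    obtain ⟨N, hN⟩ := exists_nat_gt K
    refine IsBall.bd_mono (h𝓔.bd_iUnion_lt B hB hZ N) ?_
    intro x hx
    by_cases hxB : x ∈ B
    · exact Or.inl hxB
    · right
      have h : ∃ n, x ∈ Z n := mem_iUnion.mp hx
      have e1 : c x = (Nat.find h : ℝ) := dif_pos h
      have h1 := hK x hxB
      rw [e1, Nat.abs_cast] at h1
      have h2 : Nat.find h < N := by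
        have : ((Nat.find h : ℕ) : ℝ) < N := lt_of_le_of_lt h1 hN
        exact_mod_cast this
      simp only [mem_ofPred_eq, mem_iUnion, exists_prop]
      exact ⟨_, h2, Nat.find_spec h⟩
  -- Step 6: uniform threshold
  have step6 : ∃ n1 : ℕ, ∀ Z : Set X, Bd 𝓔 Z → (∀ x x', x ∈ Z → Eqv x x' → x' ∈ Z) →
      ∃ C, Bd 𝓕 C ∧ ∀ x ∈ Z, ∀ y, y ∉ C → f x y ≤ n1 := by
    by_contra hcon
    push Not at hcon
    choose Z hZ1 hZ2 hZ3 using hcon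
    have hU := step5 Z hZ1 hZ2
    obtain ⟨C, hC, T, hT⟩ := step1 _ hU
    obtain ⟨n, hn⟩ := exists_nat_gt T
    obtain ⟨x, hx, y, hy, hlt⟩ := hZ3 n C hC
    have := hT x (mem_iUnion.mpr ⟨n, hx⟩) y hy
    linarith
  obtain ⟨n1, hn1⟩ := step6
  -- the maximal disjoint family
  let Xinf : Set X := {x | ∀ t : ℝ, ∃ y, t < f x y}
  let S : X × ℝ → Set Y := fun p => {y | p.2 < f p.1 y}
  let U : Set (X × ℝ) := {p | p.1 ∈ Xinf ∧ (n1 : ℝ) ≤ p.2}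
  obtain ⟨A, hA⟩ : ∃ A, Maximal (fun A => A ∈ {A : Set (X × ℝ) | A ⊆ U ∧ A.PairwiseDisjoint S}) A := by
    apply zorn_subset
    intro c hc hchain
    refine ⟨⋃₀ c, ⟨?_, ?_⟩, fun s hs => subset_sUnion_of_mem hs⟩
    · exact sUnion_subset fun s hs => (hc hs).1
    · have hdir : DirectedOn (· ⊆ ·) c := hchain.directedOn
      exact (Set.pairwise_sUnion hdir).mpr fun s hs => (hc hs).2
  have hAU : A ⊆ U := hA.prop.1
  have hAdisj : A.PairwiseDisjoint S := hA.prop.2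
  have hAmax : ∀ p ∈ U, p ∉ A → ∃ q ∈ A, ∃ y, y ∈ S p ∧ y ∈ S q := by
    intro p hp hpA
    by_contra hcon
    push Not at hcon
    have h1 : insert p A ∈ {A : Set (X × ℝ) | A ⊆ U ∧ A.PairwiseDisjoint S} := by
      refine ⟨insert_subset hp hAU, ?_⟩
      rw [Set.pairwiseDisjoint_insert]
      refine ⟨hAdisj, fun q hq _ => ?_⟩
      rw [Set.disjoint_left]
      exact fun y hy hy' => hcon q hq y hy hy'
    have h2 := hA.le_of_ge h1 (subset_insert p A)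
    exact hpA (h2 (mem_insert p A))
  -- the function `h`
  let h : Y → ℝ := fun y => if hy : ∃ q ∈ A, y ∈ S q then f hy.choose.1 y - hy.choose.2 else 0
  have h_eq : ∀ y, ∀ q ∈ A, y ∈ S q → h y = f q.1 y - q.2 := by
    intro y q hq hy
    have hex : ∃ q ∈ A, y ∈ S q := ⟨q, hq, hy⟩
    have e1 : h y = f hex.choose.1 y - hex.choose.2 := dif_pos hex
    have e2 : hex.choose = q := by
      by_contra hne
      exact (Set.disjoint_left.mp (hAdisj hex.choose_spec.1 hq hne)) hex.choose_spec.2 hy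
    rw [e1, e2]
  have h_nonneg : ∀ y, 0 ≤ h y := by
    intro y
    by_cases hex : ∃ q ∈ A, y ∈ S q
    · obtain ⟨q, hq, hy⟩ := hex
      rw [h_eq y q hq hy]
      have : q.2 < f q.1 y := hy
      linarith
    · have e1 : h y = 0 := dif_neg hex
      rw [e1]
  have h_ge : ∀ y, ∀ q ∈ A, f q.1 y - q.2 ≤ h y := by
    intro y q hq
    by_cases hy : y ∈ S q
    · rw [h_eq y q hq hy]
    · have : ¬ (q.2 < f q.1 y) := hy
      have h1 := h_nonneg y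
      linarith [not_lt.mp this]
  have hBB : BB 𝓕 h := by
    apply hY
    rintro E hE F hF hr1 hr2 ε hε ⟨B, C, hB, hC, hosc⟩
    refine ⟨C, hC, ?_⟩
    have key : ∀ y, y ∉ C → ∀ y' ∈ ball F y, ∀ y'' ∈ ball F y, h y' ≤ h y'' + ε := by
      intro y hy y' hy' y'' hy''
      by_cases hex : ∃ q ∈ A, y' ∈ S q
      · obtain ⟨q, hq, hyq⟩ := hex
        rw [h_eq y' q hq hyq]
        have h1 := hosc q.1 y (Or.inr hy) q.1 (hr1 _) q.1 (hr1 _) y' hy' y'' hy''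
        have h2 := (abs_le.mp h1).2
        have h3 := h_ge y'' q hq
        linarith
      · have e1 : h y' = 0 := dif_neg hex
        rw [e1]
        have := h_nonneg y''
        linarith
    intro y hy y' hy' y'' hy''
    rw [abs_le]
    constructor
    · have := key y hy y'' hy'' y' hy'
      linarith
    · have := key y hy y' hy' y'' hy''
      linarith
  obtain ⟨C1, hC1, K1, hK1⟩ := hBB
  have hsatC : ∀ C : Set Y, ∀ x x', x ∈ {x | ∀ t : ℝ, ∃ y ∈ C, t < f x y} → Eqv x x' →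
      x' ∈ {x | ∀ t : ℝ, ∃ y ∈ C, t < f x y} := by
    rintro C x x' hx ⟨K, hK⟩ t
    obtain ⟨y, hy, hlt⟩ := hx (t + K)
    refine ⟨y, hy, ?_⟩
    have := (abs_le.mp (hK y)).2
    linarith
  set Z1 : Set X := {x | ∀ t : ℝ, ∃ y ∈ C1, t < f x y} with hZ1
  have hZ1b : Bd 𝓔 Z1 := step2 C1 hC1
  have hAZ1 : ∀ q ∈ A, q.1 ∈ Z1 := by
    intro q hq t
    obtain ⟨y, hy⟩ := (hAU hq).1 (max t (q.2 + K1))
    refine ⟨y, ?_, lt_of_le_of_lt (le_max_left _ _) hy⟩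
    by_contra hyC
    have h1 := (abs_le.mp (hK1 y hyC)).2
    have h2 := h_ge y q hq
    have h3 : q.2 + K1 < f q.1 y := lt_of_le_of_lt (le_max_right _ _) hy
    linarith
  obtain ⟨C2, hC2, hn2⟩ := hn1 Z1 hZ1b (hsatC C1)
  set Z2 : Set X := {x | ∀ t : ℝ, ∃ y ∈ C2, t < f x y} with hZ2
  have hZ2b : Bd 𝓔 Z2 := step2 C2 hC2
  have hXinf : Bd 𝓔 Xinf := by
    refine IsBall.bd_mono (h𝓔.bd_union hZ1b hZ2b) ?_
    intro x hx
    by_cases hxA : ∃ t, (x, t) ∈ A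
    · obtain ⟨t, ht⟩ := hxA
      exact Or.inl (hAZ1 _ ht)
    · right
      intro t
      have hU : (x, max t n1) ∈ U := ⟨hx, le_max_right _ _⟩
      obtain ⟨q, hq, y, hy1, hy2⟩ := hAmax _ hU fun hmem => hxA ⟨_, hmem⟩
      refine ⟨y, ?_, lt_of_le_of_lt (le_max_left _ _) hy1⟩
      by_contra hyC
      have h1 := hn2 q.1 (hAZ1 q hq) y hyC
      have h2 : q.2 < f q.1 y := hy2
      have h3 : (n1 : ℝ) ≤ q.2 := (hAU hq).2
      linarith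
  -- the function `g`
  have hXinf_sat : ∀ x x', x ∈ Xinf → Eqv x x' → x' ∈ Xinf := by
    rintro x x' hx ⟨K, hK⟩ t
    obtain ⟨y, hlt⟩ := hx (t + K)
    refine ⟨y, ?_⟩
    have := (abs_le.mp (hK y)).2
    linarith
  have hbdd : ∀ x, x ∉ Xinf → BddAbove (range (f x)) := by
    intro x hx
    have : ∃ t : ℝ, ∀ y, f x y ≤ t := by
      by_contra hcon
      push Not at hcon
      exact hx hcon
    obtain ⟨t, ht⟩ := this
    exact ⟨t, by rintro _ ⟨y, rfl⟩; exact ht y⟩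
  let g : X → ℝ := fun x => if x ∈ Xinf then 0 else ⨆ y, f x y
  have g_eq : ∀ x, x ∉ Xinf → g x = ⨆ y, f x y := fun x hx => if_neg hx
  have hgBB : BB 𝓔 g := by
    apply hX
    rintro E hE F hF hr1 hr2 ε hε ⟨B, C, hB, hC, hosc⟩
    refine ⟨B ∪ Xinf, h𝓔.bd_union hB hXinf, ?_⟩
    intro x hx x' hx' x'' hx''
    have hxB : x ∉ B := fun h => hx (Or.inl h)
    have hxI : x ∉ Xinf := fun h => hx (Or.inr h)
    have hE1 : ∀ z ∈ ball E x, z ∉ Xinf := by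
      intro z hz hzI
      apply hxI
      apply hXinf_sat z x hzI
      exact ⟨ε, fun y => hosc x y (Or.inl hxB) z hz x (hr1 x) y (hr2 y) y (hr2 y)⟩
    have key : ∀ u ∈ ball E x, ∀ v ∈ ball E x, g u ≤ g v + ε := by
      intro u hu v hv
      rw [g_eq u (hE1 u hu), g_eq v (hE1 v hv)]
      have : Nonempty Y := ⟨y₀⟩
      refine ciSup_le fun y => ?_
      have h1 := hosc x y (Or.inl hxB) u hu v hv y (hr2 y) y (hr2 y)
      have h2 := (abs_le.mp h1).2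
      have h3 := le_ciSup (hbdd v (hE1 v hv)) y
      linarith
    rw [abs_le]
    constructor
    · have := key x'' hx'' x' hx'
      linarith
    · have := key x' hx' x'' hx''
      linarith
  obtain ⟨B3, hB3, K3, hK3⟩ := hgBB
  have hB4 : Bd 𝓔 (B3 ∪ Xinf) := h𝓔.bd_union hB3 hXinf
  obtain ⟨C3, hC3, T, hT⟩ := step1 _ hB4
  refine ⟨B3 ∪ Xinf, C3, hB4, hC3, max K3 T, fun x y hxy => ?_⟩
  by_cases hx : x ∈ B3 ∪ Xinf
  · have hy : y ∉ C3 := by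
      rcases hxy with h' | h'
      · exact absurd hx h'
      · exact h'
    exact (hT x hx y hy).trans (le_max_right _ _)
  · have hxI : x ∉ Xinf := fun h => hx (Or.inr h)
    have h1 := (abs_le.mp (hK3 x fun h => hx (Or.inl h))).2
    rw [g_eq x hxI] at h1
    exact ((le_ciSup (hbdd x hxI) y).trans h1).trans (le_max_left _ _)

/-- The core theorem. -/
theorem core {𝓔 : Set (Set (X × X))} {𝓕 : Set (Set (Y × Y))} (h𝓔 : IsBall 𝓔)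
    (h𝓕 : IsBall 𝓕) [Nonempty X] [Nonempty Y] (f : X → Y → ℝ)
    (hf : ∀ E ∈ 𝓔, ∀ F ∈ 𝓕, ∃ K, Osc2 𝓔 𝓕 f E F K)
    (hX : ∀ g : X → ℝ, (∀ E ∈ 𝓔, ∀ F ∈ 𝓕, (∀ x, (x, x) ∈ E) → (∀ y, (y, y) ∈ F) → ∀ ε, 0 ≤ ε →
      Osc2 𝓔 𝓕 f E F ε → Osc 𝓔 g E ε) → BB 𝓔 g)
    (hY : ∀ g : Y → ℝ, (∀ E ∈ 𝓔, ∀ F ∈ 𝓕, (∀ x, (x, x) ∈ E) → (∀ y, (y, y) ∈ F) → ∀ ε, 0 ≤ ε →
      Osc2 𝓔 𝓕 f E F ε → Osc 𝓕 g F ε) → BB 𝓕 g) :
    ∃ B C, Bd 𝓔 B ∧ Bd 𝓕 C ∧ ∃ K, ∀ x y, (x ∉ B ∨ y ∉ C) → |f x y| ≤ K := by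
  have habs : ∀ E F ε, Osc2 𝓔 𝓕 f E F ε → Osc2 𝓔 𝓕 (fun x y => |f x y|) E F ε := by
    rintro E F ε ⟨B, C, hB, hC, h⟩
    refine ⟨B, C, hB, hC, fun x y hxy x' hx' x'' hx'' y' hy' y'' hy'' => ?_⟩
    exact (abs_abs_sub_abs_le _ _).trans (h x y hxy x' hx' x'' hx'' y' hy' y'' hy'')
  refine core_upper h𝓔 h𝓕 (fun x y => |f x y|) ?_ ?_ ?_
  · intro E hE F hF
    obtain ⟨K, hK⟩ := hf E hE F hF
    exact ⟨K, habs _ _ _ hK⟩
  · intro g hg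
    apply hX
    intro E hE F hF h1 h2 ε hε h
    exact hg E hE F hF h1 h2 ε hε (habs _ _ _ h)
  · intro g hg
    apply hY
    intro E hE F hF h1 h2 ε hε h
    exact hg E hE F hF h1 h2 ε hε (habs _ _ _ h)

end Q184.Ball
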