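import Mathlib
import Pool.Agent.Q184.Ball.Core

/-!
# Transfer of the core theorem to the product ballean
-/

open Set

namespace Q184.Ball

variable {X Y : Type*}

theorem ediam_image_le {f : X → ℝ} {S : Set X} {ε : ℝ} (hε : 0 ≤ ε) :
    Metric.ediam (f '' S) ≤ ENNReal.ofReal ε ↔ ∀ y ∈ S, ∀ z ∈ S, |f y - f z| ≤ ε := by
  rw [Metric.ediam_le_iff]
  constructor
  · intro h y hy z hz
    have h1 := h (f y) ⟨y, hy, rfl⟩ (f z) ⟨z, hz, rfl⟩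
    rw [edist_dist, Real.dist_eq] at h1
    exact (ENNReal.ofReal_le_ofReal_iff hε).mp h1
  · rintro h _ ⟨y, hy, rfl⟩ _ ⟨z, hz, rfl⟩
    rw [edist_dist, Real.dist_eq]
    exact ENNReal.ofReal_le_ofReal (h y hy z hz)

/-- The rectangle entourage. -/
def rect (E : Set (X × X)) (F : Set (Y × Y)) : Set ((X × Y) × (X × Y)) :=
  {p | (p.1.1, p.2.1) ∈ E ∧ (p.1.2, p.2.2) ∈ F}

theorem Osc.mono {𝓔 : Set (Set (X × X))} {g : X → ℝ} {E E' : Set (X × X)} {ε : ℝ}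
    (h : Osc 𝓔 g E' ε) (hE : E ⊆ E') : Osc 𝓔 g E ε := by
  obtain ⟨B, hB, hb⟩ := h
  exact ⟨B, hB, fun x hx y hy z hz => hb x hx y (hE hy) z (hE hz)⟩

theorem prod_core {𝓔 : Set (Set (X × X))} {𝓕 : Set (Set (Y × Y))} (h𝓔 : IsBall 𝓔)
    (h𝓕 : IsBall 𝓕) (P : Set (Set ((X × Y) × (X × Y))))
    (hP1 : ∀ S ∈ P, ∃ E ∈ 𝓔, ∃ F ∈ 𝓕, S ⊆ rect E F)
    (hP2 : ∀ E ∈ 𝓔, ∀ F ∈ 𝓕, rect E F ∈ P)
    (f : X × Y → ℝ) (hf : ∀ S ∈ P, ∃ K, Osc P f S K)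
    (hX : ∀ g : X → ℝ, (∀ E ∈ 𝓔, ∀ F ∈ 𝓕, (∀ x, (x, x) ∈ E) → (∀ y, (y, y) ∈ F) → ∀ ε, 0 ≤ ε →
      Osc P f (rect E F) ε → Osc 𝓔 g E ε) → BB 𝓔 g)
    (hY : ∀ g : Y → ℝ, (∀ E ∈ 𝓔, ∀ F ∈ 𝓕, (∀ x, (x, x) ∈ E) → (∀ y, (y, y) ∈ F) → ∀ ε, 0 ≤ ε →
      Osc P f (rect E F) ε → Osc 𝓕 g F ε) → BB 𝓕 g) :
    BB P f := by
  have hPB : ∀ W, Bd P W → ∃ B C, Bd 𝓔 B ∧ Bd 𝓕 C ∧ ∀ p ∈ W, p.1 ∈ B ∧ p.2 ∈ C := by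
    rintro W ⟨S, hS, ⟨x, y⟩, hW⟩
    obtain ⟨E, hE, F, hF, hsub⟩ := hP1 S hS
    exact ⟨ball E x, ball F y, ⟨E, hE, x, Subset.rfl⟩, ⟨F, hF, y, Subset.rfl⟩,
      fun p hp => hsub (hW hp)⟩
  have hosc : ∀ E F ε, Osc P f (rect E F) ε → Osc2 𝓔 𝓕 (fun x y => f (x, y)) E F ε := by
    rintro E F ε ⟨W, hW, h⟩
    obtain ⟨B, C, hB, hC, hBC⟩ := hPB W hW
    refine ⟨B, C, hB, hC, fun x y hxy x' hx' x'' hx'' y' hy' y'' hy'' => ?_⟩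
    refine h (x, y) (fun hmem => ?_) (x', y') ⟨hx', hy'⟩ (x'', y'') ⟨hx'', hy''⟩
    rcases hxy with h' | h'
    · exact h' (hBC _ hmem).1
    · exact h' (hBC _ hmem).2
  have hne𝓔 : ∃ E, E ∈ 𝓔 := by
    by_contra hcon
    push Not at hcon
    obtain ⟨B, ⟨E, hE, -⟩, -⟩ := hX (fun _ => 0) fun E hE => absurd hE (hcon E)
    exact hcon E hE
  have hne𝓕 : ∃ F, F ∈ 𝓕 := by
    by_contra hcon
    push Not at hcon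
    obtain ⟨B, ⟨E, hE, -⟩, -⟩ := hY (fun _ => 0) fun E _ F hF => absurd hF (hcon F)
    exact hcon E hE
  obtain ⟨E0, hE0⟩ := hne𝓔
  obtain ⟨F0, hF0⟩ := hne𝓕
  obtain ⟨K, W, ⟨-, -, ⟨x, y⟩, -⟩, -⟩ := hf _ (hP2 E0 hE0 F0 hF0)
  have : Nonempty X := ⟨x⟩
  have : Nonempty Y := ⟨y⟩
  obtain ⟨B, C, ⟨E, hE, xB, hB⟩, ⟨F, hF, yC, hC⟩, K, hK⟩ := core h𝓔 h𝓕 (fun x y => f (x, y))
    (fun E hE F hF => by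
      obtain ⟨K, hK⟩ := hf _ (hP2 E hE F hF)
      exact ⟨K, hosc _ _ _ hK⟩)
    (fun g hg => hX g fun E hE F hF h1 h2 ε hε h => hg E hE F hF h1 h2 ε hε (hosc _ _ _ h))
    (fun g hg => hY g fun E hE F hF h1 h2 ε hε h => hg E hE F hF h1 h2 ε hε (hosc _ _ _ h))
  refine ⟨{p | p.1 ∈ B ∧ p.2 ∈ C}, ⟨rect E F, hP2 E hE F hF, (xB, yC),
    fun p hp => ⟨hB hp.1, hC hp.2⟩⟩, K, ?_⟩
  rintro ⟨x, y⟩ hxy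
  apply hK
  by_contra hcon
  push Not at hcon
  exact hxy hcon

end Q184.Ball
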